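import Mathlib
import Pool.Agent.Y822.Low2

/-!
The Hardy-Littlewood prime tuples conjecture with almost primes: there is an absolute constant `c > 0` such that for
every `k` and every finite set `A` of integers in `[1, N]`, however sparse, all but `C(|A|, k - 1) (log N)^B` of the
`k`-element admissible sets `H` of shifts from `A` have at least `c^k` times the conjectured number of primes `p ≤ N`
for which all `p + h`, `h ∈ H`, have at most two prime factors.
-/

namespace Pool.Agent.Results.MP_68a45e_nt.AlmostPrimePatterns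
open Finset Pool.Agent.H387R2.Uni Filter

open Classical in
/-- the number of primes `p ≤ N` such that every `p + h`, `h ∈ H`, has at most two prime factors (counted with
multiplicity), all of them at least `N ^ (1/7)` -/
noncomputable def primesWithAlmostPrimeShifts (H : Finset ℕ) (N : ℕ) : ℕ :=
  ((Icc 1 N).filter (fun p => p.Prime ∧ ∀ h ∈ H, (p + h).primeFactorsList.length ≤ 2 ∧
    ∀ q ∈ (p + h).primeFactors, (N : ℝ) ^ (1 / 7 : ℝ) ≤ q)).card

open Classical in
theorem result :
    -- the conjectured constants are convergent products, positive for admissible patterns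
    (∀ H : Finset ℕ, HasProd (fun p : Nat.Primes => locT (insert 0 H) p) (CT (insert 0 H)) ∧
      (Adm (insert 0 H) → 0 < CT (insert 0 H))) ∧
    -- the lower bound, outside few sets of shifts, with an absolute constant `c`
    ∃ c : ℝ, 0 < c ∧ ∀ k : ℕ, 1 ≤ k → ∃ B N₀ : ℕ, ∀ N : ℕ, N₀ ≤ N →
      ∀ A : Finset ℕ, (∀ a ∈ A, 1 ≤ a ∧ a ≤ N) →
        (((A.powersetCard k).filter (fun H => Adm (insert 0 H) ∧
          (primesWithAlmostPrimeShifts H N : ℝ) <
            c ^ k * CT (insert 0 H) * (N / Real.log N ^ (k + 1)))).card : ℝ) ≤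
          A.card.choose (k - 1) * Real.log N ^ B := by
  refine ⟨fun H => ⟨CT_hasProd _, fun hA => ?_⟩, ?_⟩
  · rw [← CT_en]
    apply Pool.Agent.H386R2.HL.singularSeries_pos (en_inj _)
    intro p hp
    rw [nu_en]
    exact hA p hp
  · obtain ⟨c, hc, hmain⟩ := Pool.Agent.Y822.Low.low_main
    refine ⟨c, hc, fun k hk => ?_⟩
    obtain ⟨k, rfl⟩ : ∃ j, k = j + 1 := ⟨k - 1, by omega⟩
    obtain ⟨B, hB⟩ := hmain k
    obtain ⟨N₀, hN₀⟩ := eventually_atTop.1 hB
    refine ⟨B, N₀, fun N hN A hA => ?_⟩
    rw [Nat.add_sub_cancel]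
    refine hN₀ N hN A hA _ fun H hH => ?_
    rw [mem_filter] at hH
    exact ⟨hH.1, hH.2.1, hH.2.2⟩

end Pool.Agent.Results.MP_68a45e_nt.AlmostPrimePatterns
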