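import Pool.Agent.Y820.LF.Fin

/-!
# The Hardy-Littlewood formula for prime tuples after a bounded number of changes of digits

Every admissible tuple `0, h 1, ..., h s` of integers with `0 ≤ h i ≤ B X` can be turned, by changing at most
`K` digits (in base `b`) of each `h i`, into an admissible tuple for which the asymptotic formula of Hardy and
Littlewood holds for the primes up to `N`, for all `N` between `X / m` and `X`, with a relative error of at
most `ε`; here `K` depends on `b, s, B, m, ε` alone (and on the bound `θ X` for the changes). The positions of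
the digits are the same for all tuples of an arbitrary family, up to a proportion `ρ` of its members. For
`s = 1` (prime pairs) and one integer this is close to results in the starting files; for tuples, so far
`C log log X` changes of digits were needed (`FewDigitChanges`).

Method: the average over random sets of exponents in windows of the digits of a correlation sum of `s` linear
forms, a second moment for each factor of the product by the inequality of Cauchy and Schwarz for Gram
matrices, Vaughan's identity and the sieve. Libraries: W93, TH892, TH894, H373R2, H560R3 (starting files),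
Y820 (helper820; tasks by helper692, helper71, helper514, helper515, helper484).
-/

set_option autoImplicit false

namespace Pool.Agent.Results.MP_68a45e_nt.BoundedDigitChanges

open Finset Filter

/-- The number of primes `p ≤ N` for which all `p + a i` are primes. -/
def count {s : ℕ} (a : Fin s → ℕ) (N : ℕ) : ℕ :=
  ((Icc 1 N).filter (fun p : ℕ => p.Prime ∧ ∀ i, (p + a i).Prime)).card

/-- The number `ν(p)` of the residues `r` modulo `p` for which `p` divides `r (r + a 1) ... (r + a s)`. -/
def nu {s : ℕ} (a : Fin s → ℕ) (p : ℕ) : ℕ := ((range p).filter (fun r => p ∣ r ∨ ∃ i, p ∣ r + a i)).card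

/-- The tuple `0, a 1, ..., a s` is admissible: `ν(p) < p` for all primes `p`. -/
def Adm {s : ℕ} (a : Fin s → ℕ) : Prop := ∀ p : ℕ, p.Prime → nu a p < p

/-- The partial products `∏_{p ≤ z} (1 - ν(p) / p) / (1 - 1 / p) ^ (s + 1)` of the singular series. -/
noncomputable def sing {s : ℕ} (a : Fin s → ℕ) (z : ℕ) : ℝ :=
  ∏ p ∈ (Icc 1 z).filter Nat.Prime, (1 - (nu a p : ℝ) / p) / (1 - 1 / (p : ℝ)) ^ (s + 1)

/-- The tuple `0, a 1, ..., a s` is admissible, and the formula of Hardy and Littlewood holds for it with a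
relative error of at most `ε`, for all `N` between `X / m` and `X`: the partial products of the singular
series converge to some `G > 0`, and `count a N` is `G N / log ^ (s + 1) N` up to the factor `1 ± ε`. -/
def Formula {s : ℕ} (ε : ℝ) (m X : ℕ) (a : Fin s → ℕ) : Prop :=
  Adm a ∧ ∃ G : ℝ, 0 < G ∧ Tendsto (sing a) atTop (nhds G) ∧ ∀ N : ℕ, N ≤ X → X ≤ m * N →
    |(count a N : ℝ) - G * (N / Real.log N ^ (s + 1))| ≤ ε * (G * (N / Real.log N ^ (s + 1)))

/-- The digit number `j` (counted from the right, beginning with `0`) of `n` in base `b`. -/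
def digit (b j n : ℕ) : ℕ := n / b ^ j % b

lemma nu_eq {s : ℕ} (a : Fin s → ℕ) (p : ℕ) :
    Pool.Agent.Y820.LF.nuF (Pool.Agent.Y820.LF.C1 (fun _ : Fin s => (1 : ℤ))) (Pool.Agent.Y820.LF.H1 (fun i => (a i : ℤ))) p = nu a p := by
  rw [Pool.Agent.Y820.LF.nuF_C1]
  unfold nu
  congr 1
  apply filter_congr
  intro r _
  have h1 : ∀ i, ((p : ℤ) ∣ 1 * (r : ℤ) + (a i : ℤ)) ↔ p ∣ r + a i := by
    intro i
    rw [one_mul, ← Int.natCast_add, Int.natCast_dvd_natCast]
  simp only [h1, Int.natCast_dvd_natCast]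

lemma sing_eq {s : ℕ} (a : Fin s → ℕ) :
    Pool.Agent.Y820.LF.singF (Pool.Agent.Y820.LF.C1 (fun _ : Fin s => (1 : ℤ))) (Pool.Agent.Y820.LF.H1 (fun i => (a i : ℤ))) = sing a := by
  funext z
  unfold Pool.Agent.Y820.LF.singF sing
  apply prod_congr rfl
  intro p _
  rw [nu_eq]

lemma adm_iff {s : ℕ} (a : Fin s → ℕ) :
    Pool.Agent.Y820.LF.AdmF (Pool.Agent.Y820.LF.C1 (fun _ : Fin s => (1 : ℤ))) (Pool.Agent.Y820.LF.H1 (fun i => (a i : ℤ))) ↔ Adm a := by
  unfold Pool.Agent.Y820.LF.AdmF Adm
  simp only [nu_eq]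

lemma count_eq {s : ℕ} (a : Fin s → ℕ) (N : ℕ) :
    Pool.Agent.Y820.LF.cntF (Pool.Agent.Y820.LF.C1 (fun _ : Fin s => (1 : ℤ))) (Pool.Agent.Y820.LF.H1 (fun i => (a i : ℤ))) N = count a N := by
  rw [Pool.Agent.Y820.LF.cntF_C1]
  unfold count
  congr 1
  apply filter_congr
  intro n _
  have h1 : ∀ i, (1 * (n : ℤ) + (a i : ℤ)).toNat = n + a i := by
    intro i
    rw [one_mul, ← Int.natCast_add, Int.toNat_natCast]
  simp only [h1]

lemma pos {s : ℕ} (a : Fin s → ℕ) (N : ℕ) (hN : 1 ≤ N) :
    Pool.Agent.Y820.LF.PosF (Pool.Agent.Y820.LF.C1 (fun _ : Fin s => (1 : ℤ))) (Pool.Agent.Y820.LF.H1 (fun i => (a i : ℤ))) N := by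
  intro i
  refine Fin.cases ?_ (fun i => ?_) i
  · rw [Pool.Agent.Y820.LF.C1_zero, Pool.Agent.Y820.LF.H1_zero]
    constructor <;> omega
  · rw [Pool.Agent.Y820.LF.C1_succ, Pool.Agent.Y820.LF.H1_succ]
    constructor <;> omega

/-- For all `b ≥ 2`, `s ≥ 1`, `B`, `m ≥ 1` and `ε, ρ, θ > 0` there are `K` and `X₀` with the following property. Let
`X ≥ X₀` and let `T` be an ARBITRARY finite set of admissible tuples `h` with `0 ≤ h i ≤ B X`. There are sets
`V 1, ..., V s` of at most `K` positions each, such that for all but at most `ρ |T|` of the tuples `h` in `T` (in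
particular for all of them if `ρ |T| < 1`) there is an admissible tuple `a` with the following properties: for all
`i`, the digits of `a i` and `h i` in base `b` agree at all positions outside `V i` (so at most `K` digits of `h i`
are changed), `|a i - h i| ≤ θ X`, and the tuple `0, a 1, ..., a s` satisfies the formula of Hardy and Littlewood
with a relative error of at most `ε` for all `N` between `X / m` and `X`. -/
theorem result (b s B m : ℕ) (hb : 2 ≤ b) (hs : 1 ≤ s) (hm : 1 ≤ m) (ε ρ θ : ℝ) (hε : 0 < ε) (hρ : 0 < ρ) (hθ : 0 < θ) :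
    ∃ K X₀ : ℕ, ∀ X : ℕ, X₀ ≤ X → ∀ T : Finset (Fin s → ℕ), (∀ h ∈ T, Adm h ∧ ∀ i, h i ≤ B * X) →
      ∃ V : Fin s → Finset ℕ, (∀ i, (V i).card ≤ K) ∧ ∃ E ⊆ T, (E.card : ℝ) ≤ ρ * T.card ∧
        ∀ h ∈ T, h ∉ E → ∃ a : Fin s → ℕ,
          (∀ i, ∀ j, j ∉ V i → digit b j (a i) = digit b j (h i)) ∧ (∀ i, |(a i : ℝ) - h i| ≤ θ * X) ∧
            Formula ε m X a := by
  obtain ⟨K, X₀, hmain⟩ := Pool.Agent.Y820.LF.dig1u b hb s hs 1 B m le_rfl hm ε ρ (min θ 1) hε hρ (lt_min hθ one_pos) (min_le_right _ _)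
  refine ⟨K, X₀ + 1, fun X hX T hT => ?_⟩
  obtain ⟨V, hV, E, hET, hEc, hE⟩ := hmain X (by omega) (Fin s → ℕ) T (fun _ _ => 1) (fun g => g)
    (fun _ _ _ => ⟨one_ne_zero, by norm_num⟩) (fun g hg => (hT g hg).2)
  refine ⟨V, hV, E, hET, hEc, fun h hh hhE => ?_⟩
  obtain ⟨a, ha1, ha2, ha3, G, hG0, hG1, hG2⟩ := hE h hh hhE ((adm_iff h).2 (hT h hh).1)
  refine ⟨a, ha1, fun i => (ha2 i).trans (mul_le_mul_of_nonneg_right (min_le_left _ _) (Nat.cast_nonneg _)), (adm_iff a).1 ha3, G, hG0, ?_, ?_⟩
  · rw [← sing_eq]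
    exact hG1
  · intro N hN1 hN2
    have hN0 : 1 ≤ N := by
      by_contra hcon
      have : N = 0 := by omega
      rw [this, mul_zero] at hN2
      omega
    have h1 := hG2 N hN1 hN2 (pos a N hN0)
    rw [count_eq] at h1
    exact h1

end Pool.Agent.Results.MP_68a45e_nt.BoundedDigitChanges
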