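import Mathlib
import Pool.Agent.Y822.Up

/-!
The Hardy-Littlewood prime tuples conjecture: for every `k` and every finite set `A` of integers in `[1, N]`, however
sparse, all but `C(|A|, k - 1) (log N)^B` of the `k`-element sets `H` of shifts from `A` satisfy the sieve upper bound
with the constant `4^k + ε` in place of the classical `4^k k!` or `2^(k+1) (k+1)!`.
-/

namespace Pool.Agent.Results.MP_68a45e_nt.ExponentialUpperBound
open Finset Pool.Agent.H387R2.Uni Filter

/-- the number of primes `p ≤ N` such that all `p + h`, `h ∈ H`, are prime -/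
def primesWithShifts (H : Finset ℕ) (N : ℕ) : ℕ :=
  ((Icc 1 N).filter (fun p => p.Prime ∧ ∀ h ∈ H, (p + h).Prime)).card

open Classical in
theorem result :
    -- the conjectured constants are convergent products, positive for admissible patterns
    (∀ H : Finset ℕ, HasProd (fun p : Nat.Primes => locT (insert 0 H) p) (CT (insert 0 H)) ∧
      (Adm (insert 0 H) → 0 < CT (insert 0 H))) ∧
    -- the upper bound, outside few sets of shifts
    ∀ k : ℕ, 1 ≤ k → ∀ ε : ℝ, 0 < ε → ∃ B N₀ : ℕ, ∀ N : ℕ, N₀ ≤ N →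
      ∀ A : Finset ℕ, (∀ a ∈ A, 1 ≤ a ∧ a ≤ N) →
        (((A.powersetCard k).filter (fun H => Adm (insert 0 H) ∧
          (4 ^ k + ε) * CT (insert 0 H) * (N / Real.log N ^ (k + 1)) < primesWithShifts H N)).card : ℝ) ≤
          A.card.choose (k - 1) * Real.log N ^ B := by
  refine ⟨fun H => ⟨CT_hasProd _, fun hA => ?_⟩, fun k hk ε hε => ?_⟩
  · rw [← CT_en]
    apply Pool.Agent.H386R2.HL.singularSeries_pos (en_inj _)
    intro p hp
    rw [nu_en]
    exact hA p hp
  · obtain ⟨k, rfl⟩ : ∃ j, k = j + 1 := ⟨k - 1, by omega⟩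
    obtain ⟨B, hB⟩ := Pool.Agent.Y822.upper_main k ε hε
    obtain ⟨N₀, hN₀⟩ := eventually_atTop.1 hB
    refine ⟨B, N₀, fun N hN A hA => ?_⟩
    rw [Nat.add_sub_cancel]
    refine hN₀ N hN A hA _ fun H hH => ?_
    rw [mem_filter] at hH
    exact ⟨hH.1, hH.2.1, hH.2.2⟩

end Pool.Agent.Results.MP_68a45e_nt.ExponentialUpperBound
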