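import Pool.Agent.Y885.TU2

/-!
# The asymptotic formula of Hardy and Littlewood for prime tuples: the shifts are random sums with up to two
fifths of the scales missing

Definitions used: `Pool.Agent.H373R2.T7.singZ a z`: the partial product over the primes `p ≤ z` of
`(1 - ν(p) / p) / (1 - 1 / p) ^ (s + 1)`, where `ν(p)` is the number of `r < p` for which `p` divides
`r (r + a 1) ... (r + a s)`; `Pool.Agent.H373R2.T7.tupleCount a N`: the sum of
`log p * ∏ i, log (p + a i)` over the primes `p ≤ N` for which all `p + a i` are primes;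
`Pool.Agent.H373R2.T7.Admissible a`: for every prime `p` there is an `r` such that `p` divides neither
`r` nor any `r + a i`; `Pool.Agent.H560R3.GB.primeTuples a N`: the number of primes `p ≤ N` for which
all `p + a i` are primes.
-/

set_option autoImplicit false

namespace Pool.Agent.Results.MP_68a45e_nt.RandomSumShifts

open Finset Pool.Agent.H560R3.GB
open Pool.Agent.H373R2.T7 (singZ tupleCount Admissible)

/-- The formula of Hardy and Littlewood for the shifts `a 1, ..., a s` and the primes up to `N`: the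
singular series converges, its sum `S` predicts the weighted number of prime tuples with an error of
at most `N / log ^ U N`, and, if the shifts are admissible, `S` is positive and `S N / log ^ (s + 1) N`
predicts the number of prime tuples with a relative error of at most `ε`. -/
def Holds {s : ℕ} (ε : ℝ) (U N : ℕ) (a : Fin s → ℕ) : Prop :=
  ∃ S : ℝ, Filter.Tendsto (fun z => singZ (fun i => (a i : ℤ)) z) Filter.atTop (nhds S) ∧
    |tupleCount (fun i => (a i : ℤ)) N - S * N| ≤ (N : ℝ) / Real.log N ^ U ∧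
    (Admissible (fun i => (a i : ℤ)) → 0 < S ∧
      |(primeTuples a N : ℝ) - S * (N / Real.log N ^ (s + 1))| ≤ ε * (S * (N / Real.log N ^ (s + 1))))

/-- The set `J` of scales below `k` is rich: it contains more than three fifths of all the scales, more than one half
of the `m` lowest scales, and a positive proportion of the `m` highest scales (the last two conditions are
void for `m ≤ D log k`). -/
structure Rich (δ : ℝ) (D k : ℕ) (J : Finset ℕ) : Prop where
  lt : ∀ j ∈ J, j < k
  all : (3 / 5 + δ) * k ≤ (J.card : ℝ)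
  low : ∀ m ≤ k, (1 / 2 + δ) * m ≤ ((J.filter fun j => j < m).card : ℝ) + D * Real.log k
  high : ∀ m ≤ k, δ * m ≤ ((J.filter fun j => k - m ≤ j).card : ℝ) + D * Real.log k

open Classical in
/-- The probability of the event `E` if the `x i j`, for `i < s` and `j < k`, are independent random integers, where
`x i j` takes its values in the finite set `σ i j`, and the value `v` with the probability `p i j v`. -/
noncomputable def Prob (s k : ℕ) (σ : Fin s → ℕ → Finset ℤ) (p : Fin s → ℕ → ℤ → ℝ) (E : (Fin s → Fin k → ℤ) → Prop) : ℝ :=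
  ∑ x ∈ Fintype.piFinset (fun i : Fin s => Fintype.piFinset (fun j : Fin k => σ i j)),
    if E x then ∏ i, ∏ j : Fin k, p i j (x i j) else 0

/-- Let `s ≥ 1`, `b ≥ 2`, `B ≥ 1`, `D`, `U`, `η > 0`, `δ > 0` and `ε > 0` be fixed, let `k` be large, and let `J 1, ..., J s`
be arbitrary rich sets of scales below `k`. Let the `x i j` (`i < s`, `j < k`) be arbitrary independent random integers
with `|x i j| ≤ B b ^ j` such that, for all `j` in `J i`, no interval of the length `b ^ j / B` contains `x i j` with a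
probability larger than `1 - η` (nothing is assumed for the other `j`: these `x i j` may be constants). Let
`|c i| ≤ B b ^ k` be arbitrary integers and let `b ^ k / B ≤ N ≤ B b ^ k`. Then, with a probability of at least
`1 - 1 / k ^ U`, the integers `a i = c i + ∑ j, x i j` have the following property: if none of them is negative, then
the formula of Hardy and Littlewood holds for the shifts `a 1, ..., a s` and the primes up to `N`. -/
theorem result (s b B D U : ℕ) (hs : 1 ≤ s) (hb : 2 ≤ b) (hB : 1 ≤ B) (η δ ε : ℝ) (hη : 0 < η) (hδ : 0 < δ) (hε : 0 < ε) :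
    ∃ k₀ : ℕ, ∀ k : ℕ, k₀ ≤ k → ∀ J : Fin s → Finset ℕ, (∀ i, Rich δ D k (J i)) →
      ∀ (σ : Fin s → ℕ → Finset ℤ) (p : Fin s → ℕ → ℤ → ℝ),
      (∀ i, ∀ j < k, (∀ x ∈ σ i j, 0 ≤ p i j x ∧ |x| ≤ (B : ℤ) * (b : ℤ) ^ j) ∧ ∑ x ∈ σ i j, p i j x = 1) →
      (∀ i, ∀ j ∈ J i, ∀ y : ℤ, ∑ x ∈ (σ i j).filter (fun x => y ≤ x ∧ (B : ℤ) * (x - y) ≤ (b : ℤ) ^ j), p i j x ≤ 1 - η) →
      ∀ c : Fin s → ℤ, (∀ i, |c i| ≤ (B : ℤ) * (b : ℤ) ^ k) →
      ∀ N : ℕ, b ^ k ≤ B * N → N ≤ B * b ^ k →
        Prob s k σ p (fun x => (∀ i, 0 ≤ c i + ∑ j, x i j) ∧ ¬ Holds ε U N (fun i => (c i + ∑ j, x i j).toNat)) ≤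
          1 / (k : ℝ) ^ U := by
  classical
  obtain ⟨k₀, h0⟩ := Pool.Agent.Y885.rs_tuples s b B D U hs hb hB η δ ε hη hδ hε
  refine ⟨k₀, fun k hk J hJ σ p hσ hp c hc N hN1 hN2 => ?_⟩
  have h1 := h0 k hk J σ p c (fun i => ⟨(hJ i).lt, (hJ i).low, (hJ i).high, (hJ i).all⟩) hσ hp hc N hN1 hN2
    (fun x => (∀ i, 0 ≤ c i + ∑ j, x i j) ∧ ¬ Holds ε U N (fun i => (c i + ∑ j, x i j).toNat)) (Classical.decPred _)
    (fun x hx => hx)
  refine le_trans (le_of_eq ?_) h1
  unfold Prob
  apply sum_congr rfl
  intro x _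
  split_ifs <;> rfl

end Pool.Agent.Results.MP_68a45e_nt.RandomSumShifts
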